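import Pool.Agent.X264.OAO.Spaces

/-!
# The pointwise suprema in the formula for the join need not exist

There are Riesz spaces `E`, `F` and orthogonally additive maps `S, T : E → F` whose join `S ∨ T`
exists in `𝒪(E, F)`, and a point `x ∈ E` such that the set `{S u + T v : x = u ⊔ v}` has no least
upper bound in `F`.
-/

set_option autoImplicit false

namespace Pool.Agent.Results.MP_f32e1d_an.NoSupremum

open Pool.Agent.X264.OAO

/-- The set `{S u + T v : x = u ⊔ v}`, where `x = u ⊔ v` means that `x = u + v` and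
`|u| ∧ |v| = 0`. -/
def fragmentSums {E F : Type*} [AddCommGroup E] [Lattice E] [AddCommGroup F] (S T : E → F)
    (x : E) : Set F :=
  {y | ∃ u v : E, x = u + v ∧ |u| ⊓ |v| = 0 ∧ y = S u + T v}

/-- The even numbers. -/
def Ev : Set ℕ := {x | x % 2 = 0}

theorem per_Ev (n : ℕ) (hn : 1 ≤ n) : Per n Ev := by
  have : Per 1 Ev := by
    intro x
    show (x + 2 ^ 1) % 2 = 0 ↔ x % 2 = 0
    simp
  exact this.mono hn

/-- The first point: `P = 2 δ_0 + 2 δ_1`, `N = 2 δ_0 + 2 δ_{1 + 2^m}`. -/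
noncomputable def ω₀ (m : ℕ) : Om := ⟨[(0, 2)], [(1, 2)], [(1 + 2 ^ m, 2)], by simp⟩

/-- The second point: `P = 2 δ_1 + 2 δ_0`, `N = 2 δ_1 + 2 δ_{2^m}`. -/
noncomputable def ω₁ (m : ℕ) : Om := ⟨[(1, 2)], [(0, 2)], [(0 + 2 ^ m, 2)], by simp⟩

open Classical in
theorem P₀ (m : ℕ) (A : Set ℕ) :
    (ω₀ m).P A = (if 0 ∈ A then 2 else 0) + (if 1 ∈ A then 2 else 0) := by
  simp [Om.P, ω₀]

open Classical in
theorem N₀ (m : ℕ) (A : Set ℕ) :
    (ω₀ m).N A = (if 0 ∈ A then 2 else 0) + (if 1 + 2 ^ m ∈ A then 2 else 0) := by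
  simp [Om.N, ω₀]

open Classical in
theorem P₁ (m : ℕ) (A : Set ℕ) :
    (ω₁ m).P A = (if 1 ∈ A then 2 else 0) + (if 0 ∈ A then 2 else 0) := by
  simp [Om.P, ω₁]

open Classical in
theorem N₁ (m : ℕ) (A : Set ℕ) :
    (ω₁ m).N A = (if 1 ∈ A then 2 else 0) + (if 0 + 2 ^ m ∈ A then 2 else 0) := by
  simp [Om.N, ω₁]

theorem same₀₁ (m : ℕ) : Same m (ω₀ m) (ω₁ m) := by
  classical
  intro A hA
  rw [P₀, P₁, N₀, N₁]
  have h1 := hA 0
  have h2 := hA 1
  refine ⟨add_comm _ _, ?_⟩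
  by_cases a : 0 ∈ A <;> by_cases b : 1 ∈ A
  · rw [if_pos a, if_pos (h2.2 b), if_pos b, if_pos (h1.2 a)]
  · rw [if_pos a, if_neg (fun h => b (h2.1 h)), if_neg b, if_pos (h1.2 a)]
    ring
  · rw [if_neg a, if_pos (h2.2 b), if_pos b, if_neg (fun h => a (h1.1 h))]
    ring
  · rw [if_neg a, if_neg (fun h => b (h2.1 h)), if_neg b, if_neg (fun h => a (h1.1 h))]

/-- **The negative answer.** -/
theorem result : ∃ (E F : Type)
    -- `E` is a Riesz space
    (_ : AddCommGroup E) (_ : Module ℝ E) (_ : Lattice E) (_ : IsOrderedAddMonoid E)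
    (_ : PosSMulMono ℝ E)
    -- `F` is a Riesz space
    (_ : AddCommGroup F) (_ : Module ℝ F) (_ : Lattice F) (_ : IsOrderedAddMonoid F)
    (_ : PosSMulMono ℝ F),
    -- `F` is Archimedean
    (∀ f g : F, (∀ n : ℕ, n • f ≤ g) → f ≤ 0) ∧
    ∃ S T P : E → F, IsOA S ∧ IsOA T ∧ IsJoin S T P ∧ ∃ x : E,
      ¬ ∃ L : F, IsLUB (fragmentSums S T x) L := by
  classical
  refine ⟨EE, FF, inferInstance, inferInstance, inferInstance, inferInstance, inferInstance,
    inferInstance, inferInstance, inferInstance, inferInstance, inferInstance, arch_FF,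
    opS, fun _ => 0, opP, opS_oa, zero_oa, join, ind Ev, ?_⟩
  rintro ⟨L, hL⟩
  -- the level of `L`
  obtain ⟨m, hm1, hm⟩ : ∃ m, 1 ≤ m ∧ ∀ ω ω', Same m ω ω' → L.1 ω = L.1 ω' := by
    obtain ⟨n, hn⟩ := L.2
    exact ⟨n + 1, by omega, fun ω ω' h => hn ω ω' (h.mono (by omega))⟩
  -- the lower bound for `L`
  have hL1 : 2 ≤ L.1 (ω₀ m) := by
    rw [hm _ _ (same₀₁ m)]
    have ha : Per (m + 1) {x : ℕ | x % 2 ^ (m + 1) = 0} := per_mod (fun r => r = 0)
    have hEv := per_Ev (m + 1) (by omega)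
    have hsub : {x : ℕ | x % 2 ^ (m + 1) = 0} ⊆ Ev := by
      intro x hx
      have hx' : x % 2 ^ (m + 1) = 0 := hx
      show x % 2 = 0
      have h1 : 2 ∣ 2 ^ (m + 1) := dvd_pow_self 2 (by omega)
      exact Nat.mod_eq_zero_of_dvd (h1.trans (Nat.dvd_of_mod_eq_zero hx'))
    have hmem : opS (ind {x : ℕ | x % 2 ^ (m + 1) = 0}) + 0 ∈
        fragmentSums opS (fun _ => 0) (ind Ev) := by
      refine ⟨ind {x : ℕ | x % 2 ^ (m + 1) = 0}, ind (Ev \ {x : ℕ | x % 2 ^ (m + 1) = 0}), ?_,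
        ind_disj Set.disjoint_sdiff_right, rfl⟩
      rw [← ind_union ha (hEv.diff ha) Set.disjoint_sdiff_right, Set.union_sdiff_cancel hsub]
    have h1 := hL.1 hmem (ω₁ m)
    have h2 : (opS (ind {x : ℕ | x % 2 ^ (m + 1) = 0}) + 0 : FF).1 (ω₁ m) =
        (ω₁ m).P {x : ℕ | x % 2 ^ (m + 1) = 0} - (ω₁ m).N {x : ℕ | x % 2 ^ (m + 1) = 0} := by
      rw [add_zero, opS_apply, lev_ind ha]
    have h3 : (2 : ℝ) ≤ (ω₁ m).P {x : ℕ | x % 2 ^ (m + 1) = 0} -
        (ω₁ m).N {x : ℕ | x % 2 ^ (m + 1) = 0} := by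
      rw [P₁, N₁]
      have hp : 1 < 2 ^ (m + 1) := Nat.one_lt_two_pow (by omega)
      have hp' : 0 + 2 ^ m < 2 ^ (m + 1) := by
        rw [pow_succ]
        have : 0 < 2 ^ m := by positivity
        omega
      have i1 : (1 : ℕ) ∉ {x : ℕ | x % 2 ^ (m + 1) = 0} := by
        intro h
        have h' : 1 % 2 ^ (m + 1) = 0 := h
        rw [Nat.mod_eq_of_lt hp] at h'
        omega
      have i2 : (0 : ℕ) ∈ {x : ℕ | x % 2 ^ (m + 1) = 0} := by
        show 0 % 2 ^ (m + 1) = 0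
        simp
      have i3 : (0 + 2 ^ m : ℕ) ∉ {x : ℕ | x % 2 ^ (m + 1) = 0} := by
        intro h
        have h' : (0 + 2 ^ m) % 2 ^ (m + 1) = 0 := h
        rw [Nat.mod_eq_of_lt hp'] at h'
        have : 0 < 2 ^ m := by positivity
        omega
      rw [if_neg i1, if_pos i2, if_neg i3]
      norm_num
    rw [← h2] at h3
    exact h3.trans h1
  -- an upper bound which is smaller at `ω₀`
  have hU : (fun ω : Om => ω.P Ev - if Same (m + 1) ω (ω₀ m) then 1 else 0) ∈ VF := by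
    refine ⟨m + 1, fun ω ω' h => ?_⟩
    show ω.P Ev - (if Same (m + 1) ω (ω₀ m) then (1 : ℝ) else 0) =
      ω'.P Ev - (if Same (m + 1) ω' (ω₀ m) then (1 : ℝ) else 0)
    rw [(h _ (per_Ev (m + 1) (by omega))).1]
    congr 1
    by_cases h' : Same (m + 1) ω (ω₀ m)
    · rw [if_pos h', if_pos (h.symm.trans h')]
    · rw [if_neg h', if_neg fun h'' => h' (h.trans h'')]
  have hub : (⟨_, hU⟩ : FF) ∈ upperBounds (fragmentSums opS (fun _ => 0) (ind Ev)) := by
    rintro _ ⟨u, v, huv, hd, rfl⟩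
    intro ω
    show (opS u).1 ω + 0 ≤ ω.P Ev - (if Same (m + 1) ω (ω₀ m) then (1 : ℝ) else 0)
    rw [opS_apply, add_zero]
    have hsub : lev u ⊆ Ev := by
      intro x hx
      by_contra hxE
      have h1 : (ind Ev).1 x = u.1 x + v.1 x := by rw [huv]; rfl
      rw [ind_notMem hxE] at h1
      have h2 : u.1 x = 1 := hx
      rcases disj_EE hd x with h | h
      · rw [h] at h2
        exact zero_ne_one h2
      · rw [h, h2] at h1
        norm_num at h1
    have e1 : ω.P Ev = ω.P (lev u) + ω.P (Ev \ lev u) := by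
      rw [← ω.P_union Set.disjoint_sdiff_right, Set.union_sdiff_cancel hsub]
    by_cases hs : Same (m + 1) ω (ω₀ m)
    · rw [if_pos hs]
      -- the common mass outside `Ev` vanishes
      have hc : Per (m + 1) {x : ℕ | x % 2 ^ (m + 1) = 1} := per_mod (fun r => r = 1)
      have hEv := per_Ev (m + 1) (by omega)
      have hp : 1 < 2 ^ (m + 1) := Nat.one_lt_two_pow (by omega)
      have hp' : 1 + 2 ^ m < 2 ^ (m + 1) := by
        rw [pow_succ]
        have : 1 < 2 ^ m := Nat.one_lt_two_pow (by omega)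
        omega
      have f1 : ω.N {x : ℕ | x % 2 ^ (m + 1) = 1} = 0 := by
        rw [(hs _ hc).2, N₀]
        have i1 : (0 : ℕ) ∉ {x : ℕ | x % 2 ^ (m + 1) = 1} := by
          intro h
          have h' : 0 % 2 ^ (m + 1) = 1 := h
          simp at h'
        have i2 : (1 + 2 ^ m : ℕ) ∉ {x : ℕ | x % 2 ^ (m + 1) = 1} := by
          intro h
          have h' : (1 + 2 ^ m) % 2 ^ (m + 1) = 1 := h
          rw [Nat.mod_eq_of_lt hp'] at h'
          have : 0 < 2 ^ m := by positivity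
          omega
        rw [if_neg i1, if_neg i2, add_zero]
      have f2 : ω.P (Evᶜ \ {x : ℕ | x % 2 ^ (m + 1) = 1}) = 0 := by
        rw [(hs _ (hEv.compl.diff hc)).1, P₀]
        have i1 : (0 : ℕ) ∉ Evᶜ \ {x : ℕ | x % 2 ^ (m + 1) = 1} := by
          rintro ⟨h, -⟩
          exact h (by show 0 % 2 = 0; rfl)
        have i2 : (1 : ℕ) ∉ Evᶜ \ {x : ℕ | x % 2 ^ (m + 1) = 1} := by
          rintro ⟨-, h⟩
          exact h (Nat.mod_eq_of_lt hp)
        rw [if_neg i1, if_neg i2, add_zero]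
      have g1 : Pool.Agent.X264.OAO.m ω.τ Evᶜ ≤ 0 := by
        have h1 : Evᶜ ⊆ {x : ℕ | x % 2 ^ (m + 1) = 1} ∪
            (Evᶜ \ {x : ℕ | x % 2 ^ (m + 1) = 1}) := by
          rw [Set.union_sdiff_self]
          exact Set.subset_union_right
        have h2 := m_mono ω.τ h1
        rw [m_union _ Set.disjoint_sdiff_right] at h2
        have h3 := m_nonneg ω.β {x : ℕ | x % 2 ^ (m + 1) = 1}
        have h4 := m_nonneg ω.α (Evᶜ \ {x : ℕ | x % 2 ^ (m + 1) = 1})
        unfold Om.N at f1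
        unfold Om.P at f2
        show Pool.Agent.X264.OAO.m ω.τ Evᶜ ≤ 0
        linarith
      have g2 : 1 < Pool.Agent.X264.OAO.m ω.τ Ev := by
        have h1 := m_compl ω.τ Ev
        have h2 := ω.one_lt
        have h3 : Pool.Agent.X264.OAO.m ω.τ Evᶜ ≤ 0 := g1
        linarith
      have g3 : Pool.Agent.X264.OAO.m ω.τ Ev = Pool.Agent.X264.OAO.m ω.τ (lev u) +
          Pool.Agent.X264.OAO.m ω.τ (Ev \ lev u) := by
        rw [← m_union _ Set.disjoint_sdiff_right, Set.union_sdiff_cancel hsub]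
      have g4 := m_nonneg ω.α (Ev \ lev u)
      have g5 := m_nonneg ω.β (lev u)
      have g6 : ω.P (Ev \ lev u) + ω.N (lev u) ≥ 1 := by
        unfold Om.P Om.N
        linarith
      linarith
    · rw [if_neg hs]
      have := ω.P_nonneg (Ev \ lev u)
      have := ω.N_nonneg (lev u)
      linarith
  have h1 : L.1 (ω₀ m) ≤ (ω₀ m).P Ev - (if Same (m + 1) (ω₀ m) (ω₀ m) then (1 : ℝ) else 0) :=
    hL.2 hub (ω₀ m)
  have hrefl : Same (m + 1) (ω₀ m) (ω₀ m) := fun A _ => ⟨rfl, rfl⟩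
  rw [if_pos hrefl, P₀] at h1
  have i1 : (0 : ℕ) ∈ Ev := by show 0 % 2 = 0; rfl
  have i2 : (1 : ℕ) ∉ Ev := by
    intro h
    have h' : 1 % 2 = 0 := h
    norm_num at h'
  rw [if_pos i1, if_neg i2] at h1
  norm_num at h1
  linarith

end Pool.Agent.Results.MP_f32e1d_an.NoSupremum
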